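import Mathlib

/-!
Lifting properties of continuous maps, unbundled, and the first lemmas about them.
-/

namespace QNeg

open Topology Set Function

universe u

/-- The lifting property of `f` against `p`, for continuous squares. -/
def Lf {A B X Y : Type u} [TopologicalSpace A] [TopologicalSpace B] [TopologicalSpace X]
    [TopologicalSpace Y] (f : A → B) (p : X → Y) : Prop :=
  ∀ (u : A → X) (v : B → Y), Continuous u → Continuous v → (∀ a, p (u a) = v (f a)) →
    ∃ h : B → X, Continuous h ∧ (∀ a, h (f a) = u a) ∧ ∀ b, p (h b) = v b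

/-- A continuous map between two spaces. -/
structure Ar where
  A : Type u
  B : Type u
  [tA : TopologicalSpace A]
  [tB : TopologicalSpace B]
  f : A → B
  hf : Continuous f

attribute [instance] Ar.tA Ar.tB

/-- Left orthogonal. -/
def lo (C : Set Ar.{u}) : Set Ar.{u} := {g | ∀ p ∈ C, Lf g.f p.f}

/-- Right orthogonal. -/
def ro (C : Set Ar.{u}) : Set Ar.{u} := {g | ∀ c ∈ C, Lf c.f g.f}

/-- A type with a chosen topology. -/
def W (X : Type u) (_t : TopologicalSpace X) : Type u := X

instance (X : Type u) (t : TopologicalSpace X) : TopologicalSpace (W X t) := t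

/-- The identity map into the synonym. -/
def toW {X : Type u} (t : TopologicalSpace X) (x : X) : W X t := x

/-- The identity map between two synonyms. -/
def chg {X : Type u} (t t' : TopologicalSpace X) (x : W X t) : W X t' := x

theorem lo_anti {C D : Set Ar.{u}} (h : C ⊆ D) : lo D ⊆ lo C := fun _ hg p hp => hg p (h hp)

theorem ro_anti {C D : Set Ar.{u}} (h : C ⊆ D) : ro D ⊆ ro C := fun _ hg p hp => hg p (h hp)

theorem sub_lo_ro (C : Set Ar.{u}) : C ⊆ lo (ro C) := fun _ hc _ hp => hp _ hc

theorem sub_ro_lo (C : Set Ar.{u}) : C ⊆ ro (lo C) := fun _ hc _ hp => hp _ hc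

theorem lo_ro_lo (C : Set Ar.{u}) : lo (ro (lo C)) = lo C :=
  Subset.antisymm (lo_anti (sub_ro_lo C)) (sub_lo_ro _)

theorem ro_lo_ro (C : Set Ar.{u}) : ro (lo (ro C)) = ro C :=
  Subset.antisymm (ro_anti (sub_lo_ro C)) (sub_ro_lo _)

section
variable {A B X Y : Type u} [TopologicalSpace A] [TopologicalSpace B] [TopologicalSpace X]
  [TopologicalSpace Y]

/-- A two valued map whose value on an open set specializes to the other value. -/
theorem cont_two {U : Set A} [DecidablePred (· ∈ U)] (hU : IsOpen U) {x x' : X} (h : x ⤳ x') :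
    Continuous fun a => if a ∈ U then x else x' := by
  refine continuous_def.2 fun O hO => ?_
  by_cases hx' : x' ∈ O
  · have hx : x ∈ O := h.mem_open hO hx'
    convert isOpen_univ (X := A)
    ext a
    by_cases ha : a ∈ U <;> simp [ha, hx, hx']
  · by_cases hx : x ∈ O
    · convert hU
      ext a
      by_cases ha : a ∈ U <;> simp [ha, hx, hx']
    · convert isOpen_empty (X := A)
      ext a
      by_cases ha : a ∈ U <;> simp [ha, hx, hx']

/-- A map whose values are pairwise inseparable is continuous. -/
theorem cont_insep {g : A → X} (h : ∀ a a', g a ⤳ g a') : Continuous g := by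
  refine continuous_def.2 fun O hO => ?_
  by_cases hne : ∃ a, g a ∈ O
  · obtain ⟨a, ha⟩ := hne
    convert isOpen_univ (X := A)
    ext a'
    simpa using (h a' a).mem_open hO ha
  · convert isOpen_empty (X := A)
    ext a
    simpa using fun ha => hne ⟨a, ha⟩

/-- (L1) a map lifting against a non-injective map has T0 fibres. -/
theorem t0_fibres {f : A → B} {p : X → Y} (hf : ¬ Injective f) (h : Lf f p) {x x' : X}
    (h1 : x ⤳ x') (h2 : x' ⤳ x) (hp : p x = p x') : x = x' := by
  classical
  simp only [Injective, not_forall] at hf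
  obtain ⟨a, a', hfa, hne⟩ := hf
  obtain ⟨k, -, hk, -⟩ := h (fun z => if z = a then x else x') (fun _ => p x)
    (cont_insep fun z z' => by
      by_cases hz : z = a <;> by_cases hz' : z' = a <;> simp [hz, hz', h1, h2, specializes_rfl])
    continuous_const (fun z => by by_cases hz : z = a <;> simp [hz, hp])
  have e1 := hk a
  have e2 := hk a'
  rw [if_pos rfl] at e1
  rw [if_neg (Ne.symm hne)] at e2
  rw [← e1, ← e2, hfa]

/-- Lifting against a coinducing map reduces to a set-level condition. -/
theorem lf_coind {g : A → B} {p : X → Y} (hg : IsCoinducing g)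
    (hi : ∀ (u : A → X) (v : B → Y), Continuous u → Continuous v → (∀ a, p (u a) = v (g a)) →
      ∀ a a', g a = g a' → u a = u a')
    (hs : Surjective g ∨ Surjective p) : Lf g p := by
  classical
  intro u v hu hv huv
  have key : ∀ b, ∃ x, p x = v b ∧ ∀ a, g a = b → x = u a := by
    intro b
    by_cases hb : ∃ a, g a = b
    · obtain ⟨a, rfl⟩ := hb
      exact ⟨u a, huv a, fun a' h' => hi u v hu hv huv a a' h'.symm⟩
    · rcases hs with hs | hs
      · exact absurd (hs b) hb
      · obtain ⟨x, hx⟩ := hs (v b)
        exact ⟨x, hx, fun a ha => absurd ⟨a, ha⟩ hb⟩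
  choose k hk1 hk2 using key
  have hkg : ∀ a, k (g a) = u a := fun a => hk2 _ a rfl
  refine ⟨k, continuous_def.2 fun O hO => ?_, hkg, hk1⟩
  rw [← hg.isOpen_preimage]
  convert hO.preimage hu using 1
  ext a
  simp [hkg]

/-- (L1') surjective inducing maps lift against maps with T0 fibres. -/
theorem lf_surj_ind {s : A → B} {p : X → Y} (hs : IsInducing s) (hs' : Surjective s)
    (hp : ∀ x x', x ⤳ x' → x' ⤳ x → p x = p x' → x = x') : Lf s p := by
  refine lf_coind (hs.isQuotientMap_of_surjective hs').isCoinducing ?_ (Or.inl hs')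
  intro u v hu _ huv a a' haa
  refine hp _ _ ?_ ?_ (by rw [huv, huv, haa])
  · exact (hs.specializes_iff.1 (by rw [haa])).map hu
  · exact (hs.specializes_iff.1 (by rw [haa])).map hu

/-- A non-inducing continuous map has an open set that is not a preimage of an open set. -/
theorem exists_open_of_not_ind {f : A → B} (hf : Continuous f) (h : ¬ IsInducing f) :
    ∃ U, IsOpen U ∧ ∀ V, IsOpen V → f ⁻¹' V ≠ U := by
  by_contra hne
  push Not at hne
  refine h ⟨TopologicalSpace.ext_iff.2 fun U => ⟨fun hU => ?_, fun hU => ?_⟩⟩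
  · obtain ⟨V, hV, e⟩ := hne U hU
    exact ⟨V, hV, e⟩
  · obtain ⟨V, hV, rfl⟩ := hU
    exact hV.preimage hf

/-- Bijections lift against inducing maps. -/
theorem lf_bij_ind {g : A → B} {f : X → Y} (hg : Bijective g) (hf : IsInducing f) : Lf g f := by
  intro u v _ hv huv
  obtain ⟨σ, hσ1, hσ2⟩ := bijective_iff_has_inverse.1 hg
  have e : ∀ b, f (u (σ b)) = v b := fun b => by rw [huv, hσ2 b]
  refine ⟨fun b => u (σ b), hf.continuous_iff.2 ?_, fun a => by simp [hσ1 a], e⟩
  convert hv using 1
  exact funext e

/-- A map lifting against itself lifts against everything. -/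
theorem lf_of_self {q : X → Y} (h : Lf q q) (f : A → B) : Lf f q := by
  obtain ⟨k, hk, hk1, hk2⟩ := h id id continuous_id continuous_id fun _ => rfl
  intro u v _ hv huv
  exact ⟨fun b => k (v b), hk.comp hv, fun a => by simp [← huv, hk1], fun b => hk2 _⟩

/-- An injective map with a continuous section is inducing. -/
theorem ind_of_section {p : X → Y} (hp : Continuous p) (hi : Injective p) {k : Y → X}
    (hk : Continuous k) (e : ∀ y, p (k y) = y) : IsInducing p :=
  IsInducing.of_comp hp hk (by
    convert IsInducing.id (X := X)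
    exact funext fun x => hi (e _))

end

end QNeg
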