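import Pool.Agent.MP_136091_gt.Basic

/-!
The left orthogonal of a left orthogonal that contains a non-inducing map is one of four classes.
-/

namespace QNeg

open Topology Set Function

universe u

/-- The four possible values. -/
def finalCls (i s : Prop) : Set Ar.{u} :=
  {g | IsCoinducing g.f ∧ (i → Injective g.f) ∧ (s → Surjective g.f)}

section
variable {A B X Y : Type u} [TopologicalSpace A] [TopologicalSpace B] [TopologicalSpace X]
  [TopologicalSpace Y]

theorem spec_symm_of_fibre {f : A → B} {p : X → Y} (hf : Continuous f) (hn : ¬ IsInducing f)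
    (h : Lf f p) {x x' : X} (h1 : x ⤳ x') (hp : p x = p x') : x' ⤳ x := by
  classical
  obtain ⟨U, hU, hU'⟩ := exists_open_of_not_ind hf hn
  obtain ⟨k, hk, hk1, -⟩ := h (fun a => if a ∈ U then x else x') (fun _ => p x)
    (cont_two hU h1) continuous_const (fun a => by by_cases ha : a ∈ U <;> simp [ha, hp])
  refine specializes_iff_forall_open.2 fun O hO hx => ?_
  by_contra hx'
  refine hU' (k ⁻¹' O) (hO.preimage hk) ?_
  ext a
  by_cases ha : a ∈ U <;> simp [hk1, ha, hx, hx']

theorem spec_symm_of_inj {f : A → B} {p : X → Y} (hf : Continuous f) (hn : ¬ IsInducing f)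
    (hi : Injective f) (h : Lf f p) {x x' : X} (h1 : x ⤳ x') (hp : p x ⤳ p x')
    (hp' : p x' ⤳ p x) : x' ⤳ x := by
  classical
  obtain ⟨U, hU, hU'⟩ := exists_open_of_not_ind hf hn
  obtain ⟨k, hk, hk1, -⟩ := h (fun a => if a ∈ U then x else x')
    (fun b => if b ∈ f '' U then p x else p x')
    (cont_two hU h1)
    (cont_insep fun z z' => by
      by_cases hz : z ∈ f '' U <;> by_cases hz' : z' ∈ f '' U <;>
        simp only [hz, hz', if_true, if_false, hp, hp', specializes_rfl])
    (fun a => by by_cases ha : a ∈ U <;> simp only [hi.mem_set_image, ha, if_true, if_false])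
  refine specializes_iff_forall_open.2 fun O hO hx => ?_
  by_contra hx'
  refine hU' (k ⁻¹' O) (hO.preimage hk) ?_
  ext a
  by_cases ha : a ∈ U <;> simp [hk1, ha, hx, hx']

/-- The auxiliary topology on `B × ℕ`. -/
@[reducible] def upTop (g : A → B) : TopologicalSpace (B × ℕ) where
  IsOpen U := (∀ b n m, n ≤ m → (b, n) ∈ U → (b, m) ∈ U) ∧ IsOpen {b | ∃ n, (b, n) ∈ U} ∧
    IsOpen {a | (g a, 0) ∈ U}
  isOpen_univ := ⟨fun _ _ _ _ h => h, by simp, by simp⟩
  isOpen_inter := by
    rintro s t ⟨s1, s2, s3⟩ ⟨t1, t2, t3⟩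
    refine ⟨fun b n m h hh => ⟨s1 b n m h hh.1, t1 b n m h hh.2⟩, ?_, s3.inter t3⟩
    convert s2.inter t2 using 1
    ext b
    constructor
    · rintro ⟨n, h1, h2⟩
      exact ⟨⟨n, h1⟩, ⟨n, h2⟩⟩
    · rintro ⟨⟨n, h1⟩, ⟨m, h2⟩⟩
      exact ⟨max n m, s1 b n _ (le_max_left _ _) h1, t1 b m _ (le_max_right _ _) h2⟩
  isOpen_sUnion := by
    intro S hS
    refine ⟨?_, ?_, ?_⟩
    · rintro b n m h ⟨t, ht, hh⟩
      exact ⟨t, ht, (hS t ht).1 b n m h hh⟩
    · convert isOpen_biUnion fun t (ht : t ∈ S) => (hS t ht).2.1 using 1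
      ext b
      simp only [mem_ofPred_eq, mem_sUnion, mem_iUnion, exists_prop]
      constructor
      · rintro ⟨n, t, ht, h⟩
        exact ⟨t, ht, n, h⟩
      · rintro ⟨t, ht, n, h⟩
        exact ⟨n, t, ht, h⟩
    · convert isOpen_biUnion fun t (ht : t ∈ S) => (hS t ht).2.2 using 1
      ext a
      simp only [mem_ofPred_eq, mem_sUnion, mem_iUnion, exists_prop]

theorem up_fst_cont (g : A → B) (hg : Continuous g) :
    Continuous (fun z : W (B × ℕ) (upTop g) => (z.1 : B)) := by
  refine continuous_def.2 fun O hO => ⟨fun b n m _ h => h, ?_, hO.preimage hg⟩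
  convert hO using 1
  ext b
  exact ⟨fun ⟨_, h⟩ => h, fun h => ⟨0, h⟩⟩

theorem up_fst_lf (g : A → B) {p : X → Y}
    (hp : ∀ x x', x ⤳ x' → p x = p x' → x = x') :
    Lf (fun z : W (B × ℕ) (upTop g) => (z.1 : B)) p := by
  intro u v hu _ huv
  have e : ∀ (b : B) (n : ℕ), u (b, n) = u (b, 0) := by
    intro b n
    have sp : toW (upTop g) (b, n) ⤳ toW (upTop g) (b, 0) :=
      specializes_iff_forall_open.2 fun O hO h => hO.1 b 0 n (Nat.zero_le _) h
    exact hp _ _ (sp.map hu) (by rw [huv, huv])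
  refine ⟨fun b => u (b, 0), continuous_def.2 fun O hO => ?_, fun z => (e z.1 z.2).symm,
    fun b => huv (b, 0)⟩
  convert (hO.preimage hu).2.1 using 1
  ext b
  constructor
  · intro h
    exact ⟨0, h⟩
  · rintro ⟨n, h⟩
    have h' : u (b, n) ∈ O := h
    rw [e] at h'
    exact h'

theorem coind_of_up {g : A → B} (hg : Continuous g)
    (h : Lf g (fun z : W (B × ℕ) (upTop g) => (z.1 : B))) : IsCoinducing g := by
  obtain ⟨s, hs, hs1, hs2⟩ := h (fun a => ((g a, 0) : B × ℕ)) id
    (continuous_def.2 fun O hO => hO.2.2) continuous_id (fun _ => rfl)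
  refine isCoinducing_iff.2 fun V => ⟨fun hV => ?_, fun hV => hV.preimage hg⟩
  have hU : IsOpen (X := W (B × ℕ) (upTop g)) {z | z.1 ∈ V ∨ (s z.1).2 < z.2} := by
    refine ⟨?_, ?_, ?_⟩
    · rintro b n m hnm (h | h)
      · exact Or.inl h
      · exact Or.inr (lt_of_lt_of_le h hnm)
    · convert isOpen_univ (X := B)
      ext b
      simp only [mem_ofPred_eq, mem_univ, iff_true]
      exact ⟨(s b).2 + 1, Or.inr (Nat.lt_succ_self _)⟩
    · convert hV using 1
      ext a
      exact ⟨fun h => h.elim id fun h => absurd h (Nat.not_lt_zero _), Or.inl⟩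
  convert hU.preimage hs using 1
  ext b
  have e : (s b).1 = b := hs2 b
  simp only [mem_preimage, mem_ofPred_eq, e, lt_self_iff_false, or_false]

omit [TopologicalSpace B] in
theorem sv_cont (V : Set B) :
    Continuous (chg (X := B) (.generateFrom {V}) ⊤) := continuous_top

omit [TopologicalSpace B] in
theorem sv_lf (V : Set B) {p : X → Y} (hpc : Continuous p)
    (hp : ∀ x x', x ⤳ x' → p x ⤳ p x' → p x' ⤳ p x → x' ⤳ x) :
    Lf (chg (X := B) (.generateFrom {V}) ⊤) p := by
  intro u v hu hv huv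
  have sp : ∀ b b' : W B (.generateFrom {V}), (b' ∈ V → b ∈ V) → b ⤳ b' := by
    intro b b' hb
    refine specializes_iff_forall_open.2 fun O hO => ?_
    induction hO with
    | basic s hs => rw [mem_singleton_iff.1 hs]; exact hb
    | univ => exact fun _ => trivial
    | inter s t _ _ hs ht => exact fun h => ⟨hs h.1, ht h.2⟩
    | sUnion S _ hS => exact fun ⟨t, ht, h⟩ => ⟨t, ht, hS t ht h⟩
  have sp2 : ∀ b b' : W B ⊤, b ⤳ b' := by
    intro b b'
    refine specializes_iff_forall_open.2 fun O hO h => ?_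
    rcases (TopologicalSpace.isOpen_top_iff O).1 hO with rfl | rfl
    · exact h.elim
    · trivial
  have tot : ∀ b b' : W B (.generateFrom {V}), u b ⤳ u b' := by
    intro b b'
    by_cases hb : b' ∈ V → b ∈ V
    · exact (sp b b' hb).map hu
    · have h1 : u b' ⤳ u b := (sp b' b fun h => absurd (fun _ => h) hb).map hu
      refine hp _ _ h1 (h1.map hpc) ?_
      rw [huv, huv]
      exact (sp2 _ _).map hv
  exact ⟨fun b => u b, cont_insep fun b b' => tot b b', fun _ => rfl, fun b => huv b⟩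

theorem open_of_sv {g : A → B} {V : Set B} (hV : IsOpen (g ⁻¹' V))
    (h : Lf g (chg (X := B) (.generateFrom {V}) ⊤)) : IsOpen V := by
  obtain ⟨k, hk, -, hk2⟩ := h (fun a => g a) (fun b => b)
    (continuous_generateFrom_iff.2 fun s hs => by rw [mem_singleton_iff.1 hs]; exact hV)
    continuous_top (fun _ => rfl)
  have hO : IsOpen (X := W B (.generateFrom {V})) V :=
    TopologicalSpace.isOpen_generateFrom_of_mem (mem_singleton V)
  convert hO.preimage hk using 1
  ext b
  have e : k b = b := hk2 b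
  simp only [mem_preimage, e]
  exact Iff.rfl

theorem lf_sum_unit {f : A → B} {p : X → Y} (h : Lf f p) :
    Lf (Sum.map f (id : PUnit.{u + 1} → PUnit.{u + 1})) p := by
  intro u v hu hv huv
  obtain ⟨k, hk, hk1, hk2⟩ := h (fun a => u (.inl a)) (fun b => v (.inl b))
    (hu.comp continuous_inl) (hv.comp continuous_inl) (fun a => huv (.inl a))
  refine ⟨Sum.elim k fun z => u (.inr z), hk.sumElim (hu.comp continuous_inr), ?_, ?_⟩
  · rintro (a | z)
    · exact hk1 a
    · rfl
  · rintro (b | z)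
    · exact hk2 b
    · exact huv (.inr z)

theorem surj_of_lf {g : A → B} {f : X → Y} (hg : IsCoinducing g) (x0 : X) {y : Y}
    (hy : ∀ x, f x ≠ y) (h : Lf g f) : Surjective g := by
  classical
  intro b
  by_contra hb
  have e : ∀ a, g a ≠ b := fun a ha => hb ⟨a, ha⟩
  have hv : Continuous fun b' => if b' = b then y else f x0 := by
    refine continuous_def.2 fun O hO => ?_
    rw [← hg.isOpen_preimage]
    convert hO.preimage (continuous_const (X := A) (y := f x0)) using 1
    ext a
    simp [e a]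
  obtain ⟨k, -, -, hk2⟩ := h (fun _ => x0) _ continuous_const hv (fun a => by simp [e a])
  exact hy (k b) (by simpa using hk2 b)

end

/-- Lemma lambda. -/
theorem lo_lo_eq (C : Set Ar.{u}) {f0 : Ar.{u}} (h0 : f0 ∈ lo C) (hn : ¬ IsInducing f0.f) :
    lo (lo C) = finalCls (∃ f ∈ lo C, ¬ Injective f.f) (∃ f ∈ lo C, ¬ Surjective f.f) := by
  ext g
  constructor
  · intro hg
    have hco : IsCoinducing g.f := by
      by_cases hi : ∃ f ∈ lo C, ¬ Injective f.f
      · obtain ⟨f, hf, hfi⟩ := hi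
        refine coind_of_up g.hf (hg ⟨_, _, _, up_fst_cont g.f g.hf⟩ fun p hp => ?_)
        refine up_fst_lf g.f fun x x' h1 h2 => ?_
        exact t0_fibres hfi (hf p hp) h1 (spec_symm_of_fibre f0.hf hn (h0 p hp) h1 h2) h2
      · have hi0 : Injective f0.f := by
          by_contra h
          exact hi ⟨f0, h0, h⟩
        refine isCoinducing_iff.2 fun V => ⟨fun hV => ?_, fun hV => hV.preimage g.hf⟩
        refine open_of_sv hV (hg ⟨_, _, _, sv_cont V⟩ fun p hp => ?_)
        exact sv_lf V p.hf fun x x' h1 h2 h3 =>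
          spec_symm_of_inj f0.hf hn hi0 (h0 p hp) h1 h2 h3
    refine ⟨hco, ?_, ?_⟩
    · rintro ⟨f, hf, hfi⟩ a a' haa
      have hm : (⟨W g.A ⊤, PUnit.{u + 1}, fun _ => PUnit.unit, continuous_const⟩ : Ar.{u}) ∈
          lo C := by
        intro p hp
        refine lf_surj_ind ?_ (fun _ => ⟨a, rfl⟩) fun x x' h1 h2 h3 =>
          t0_fibres hfi (hf p hp) h1 h2 h3
        refine ⟨le_antisymm (continuous_iff_le_induced.1 continuous_const) ?_⟩
        exact le_top
      obtain ⟨k, -, hk, -⟩ := hg _ hm (fun a => a) (fun _ => PUnit.unit) continuous_top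
        continuous_const (fun _ => rfl)
      have e1 : k (g.f a) = a := hk a
      have e2 : k (g.f a') = a' := hk a'
      rw [haa] at e1
      exact e1.symm.trans e2
    · rintro ⟨f, hf, hfs⟩
      simp only [Surjective, not_forall, not_exists] at hfs
      obtain ⟨y, hy⟩ := hfs
      have hm : (⟨f.A ⊕ PUnit.{u + 1}, f.B ⊕ PUnit.{u + 1}, Sum.map f.f id,
          f.hf.sumMap continuous_id⟩ : Ar.{u}) ∈ lo C := fun p hp => lf_sum_unit (hf p hp)
      refine surj_of_lf hco (f := Sum.map f.f (id : PUnit.{u + 1} → PUnit.{u + 1}))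
        (.inr PUnit.unit) (y := .inl y) ?_ (hg _ hm)
      rintro (x | x) hx
      · exact hy x (Sum.inl.inj hx)
      · exact Sum.inr_ne_inl hx
  · rintro ⟨hco, hi, hs⟩ f hf
    refine lf_coind hco ?_ ?_
    · intro u v _ _ huv a a' haa
      by_cases hfi : Injective f.f
      · exact hfi (by rw [huv, huv, haa])
      · rw [hi ⟨f, hf, hfi⟩ haa]
    · by_cases hfs : Surjective f.f
      · exact Or.inr hfs
      · exact Or.inl (hs ⟨f, hf, hfs⟩)

/-- If a class consists of inducing maps, its left orthogonal contains a non-inducing map. -/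
theorem exists_not_ind {L : Set Ar.{u}} (h : ∀ f ∈ L, IsInducing f.f) :
    ∃ f0 ∈ lo L, ¬ IsInducing f0.f := by
  refine ⟨⟨W (ULift.{u} Bool) ⊥, W (ULift.{u} Bool) ⊤, fun z => z, continuous_top⟩,
    fun f hf => lf_bij_ind bijective_id (h f hf), fun hi => ?_⟩
  have h1 : IsOpen (X := W (ULift.{u} Bool) ⊥) {⟨true⟩} := trivial
  obtain ⟨V, hV, e⟩ := hi.isOpen_iff.1 h1
  rcases (TopologicalSpace.isOpen_top_iff V).1 hV with rfl | rfl
  · have : (⟨true⟩ : W (ULift.{u} Bool) ⊥) ∈ (∅ : Set (W (ULift.{u} Bool) ⊥)) := by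
      have h2 : (⟨true⟩ : W (ULift.{u} Bool) ⊥) ∈
          ({⟨true⟩} : Set (W (ULift.{u} Bool) ⊥)) := rfl
      rw [← e] at h2
      exact h2
    exact this
  · have h2 : (⟨false⟩ : W (ULift.{u} Bool) ⊥) ∈
        ({⟨true⟩} : Set (W (ULift.{u} Bool) ⊥)) := by
      rw [← e]
      trivial
    exact absurd (congrArg ULift.down h2) (by decide)

/-- If a class consists of inducing maps, so does `ro (lo L)`. -/
theorem ro_lo_ind {L : Set Ar.{u}} (h : ∀ f ∈ L, IsInducing f.f) :
    ∀ p ∈ ro (lo L), IsInducing p.f := by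
  intro p hp
  have hc : Continuous (toW (X := p.A) (.induced p.f inferInstance)) :=
    continuous_induced_rng.2 p.hf
  obtain ⟨k, hk, hk1, -⟩ := hp ⟨_, _, _, hc⟩ (fun f hf => lf_bij_ind bijective_id (h f hf))
    (fun x => x) (fun x => p.f x) continuous_id continuous_induced_dom (fun _ => rfl)
  have e : k = fun x => x := funext hk1
  subst e
  exact ⟨le_antisymm (continuous_iff_le_induced.1 p.hf) (continuous_id_iff_le.1 hk)⟩

end QNeg
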