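import Pool.Agent.MP_136091_gt.Rho1

/-!
Triple right orthogonals when neither `R` nor `ro R` consists of inducing maps.
-/

namespace QNeg

open Topology Set Function Filter

universe u

section
variable {A0 B0 B X Y : Type u} [TopologicalSpace A0] [TopologicalSpace B0] [TopologicalSpace B]
  [TopologicalSpace X] [TopologicalSpace Y]

/-- Step 1: a surjective non-quotient map in `ro C` forces `ro (ro C)` to be inducing. -/
theorem ind_of_nonquot (C : Set Ar.{u}) {f0 : A0 → B0} (hs : Surjective f0)
    (hR : ∀ c ∈ C, Lf c.f f0) {V : Set B0} (hV : IsOpen (f0 ⁻¹' V)) (hV' : ¬ IsOpen V)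
    {p : X → Y} (hpc : Continuous p) (hp : ∀ g ∈ ro C, Lf g.f p) : IsInducing p := by
  obtain ⟨b0, hb0, hne⟩ : ∃ b0 ∈ V, (𝓝[Vᶜ] b0).NeBot := by
    by_contra h
    push Not at h
    refine hV' (isOpen_iff_mem_nhds.2 fun b hb => ?_)
    have := h b hb
    rwa [nhdsWithin, inf_principal_eq_bot, compl_compl] at this
  refine isInducing_iff_nhds.2 fun x => le_antisymm (hpc.tendsto x).le_comap ?_
  let G : Filter (X × B0) := comap p (𝓝 (p x)) ×ˢ 𝓝[Vᶜ] b0
  let τ : TopologicalSpace (X × B0) := nhdsAdjoint (x, b0) G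
  have hc : Continuous (chg (X := X × B0) ⊥ τ) := continuous_bot
  have hsnd : Continuous fun z : W (X × B0) τ => (z.2 : B0) :=
    continuous_nhdsAdjoint_dom.2 (tendsto_snd.mono_right nhdsWithin_le_nhds)
  have hfst : Continuous fun z : W (X × B0) τ => p z.1 :=
    continuous_nhdsAdjoint_dom.2 (tendsto_comap.comp tendsto_fst)
  have hm : (⟨_, _, _, hc⟩ : Ar.{u}) ∈ ro C := by
    intro c hcC u v hu hv huv
    choose σ hσ using hs
    have hσc : Continuous fun z : W (X × B0) ⊥ => σ z.2 := continuous_bot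
    obtain ⟨k, hk, -, hk2⟩ := hR c hcC (fun s => σ (u s).2) (fun t => (v t).2) (hσc.comp hu)
      (hsnd.comp hv) (fun s => by rw [hσ, ← huv]; rfl)
    have hV2 : IsOpen {t | (v t).2 ∈ V} := by
      convert (hV.preimage hk) using 1
      ext t
      simp only [mem_ofPred_eq, mem_preimage, hk2]
    have hN : IsOpen (X := W (X × B0) τ) {z | z = (x, b0) ∨ z.2 ∉ V} := fun _ =>
      mem_of_superset (prod_mem_prod univ_mem self_mem_nhdsWithin) fun z hz => Or.inr hz.2
    have hsing : ∀ z : X × B0, IsOpen {t | v t = z} := by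
      intro z
      by_cases hz : z = (x, b0)
      · convert (hN.preimage hv).inter hV2 using 1
        ext t
        constructor
        · intro ht
          have ht' : v t = (x, b0) := ht.trans hz
          refine ⟨Or.inl ht', ?_⟩
          show (v t).2 ∈ V
          rw [ht']
          exact hb0
        · rintro ⟨h1 | h1, h2⟩
          · exact h1.trans hz.symm
          · exact absurd h2 h1
      · exact (isOpen_singleton_nhdsAdjoint G hz).preimage hv
    refine ⟨fun t => chg τ ⊥ (v t), continuous_def.2 fun O _ => ?_, fun s => (huv s).symm,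
      fun _ => rfl⟩
    convert isOpen_biUnion fun z (_ : z ∈ O) => hsing z using 1
    ext t
    simp only [mem_preimage, mem_iUnion, mem_ofPred_eq, exists_prop]
    exact ⟨fun h => ⟨_, h, rfl⟩, fun ⟨z, hz, e⟩ => by
      have e' : chg τ ⊥ (v t) = z := e
      rwa [e']⟩
  obtain ⟨k, hk, hk1, -⟩ := hp _ hm (fun z => z.1) (fun z => p z.1) continuous_bot hfst
    (fun _ => rfl)
  have e : k = fun z => z.1 := funext hk1
  subst e
  have h2 : Tendsto Prod.fst G (𝓝 x) := continuous_nhdsAdjoint_dom.1 hk
  rwa [Tendsto, map_fst_prod] at h2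

/-- Step 2: a fibre with a non-specializing pair forces T1 fibres. -/
theorem t1_of_pair {f : A0 → B0} {a a' : A0} (hfa : f a = f a') (hn : ¬ a' ⤳ a) {p : X → Y}
    (h : Lf f p) {x x' : X} (h1 : x ⤳ x') (hp : p x = p x') : x = x' := by
  classical
  rw [specializes_iff_forall_open] at hn
  push Not at hn
  obtain ⟨U, hU, ha, ha'⟩ := hn
  obtain ⟨k, -, hk, -⟩ := h (fun z => if z ∈ U then x else x') (fun _ => p x) (cont_two hU h1)
    continuous_const (fun z => by by_cases hz : z ∈ U <;> simp [hz, hp])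
  have e1 := hk a
  have e2 := hk a'
  rw [if_pos ha] at e1
  rw [if_neg ha'] at e2
  rw [← e1, ← e2, hfa]

/-- Corestriction to the range keeps the right lifting property. -/
theorem lf_corestrict {S T : Type u} [TopologicalSpace S] [TopologicalSpace T] {c : S → T}
    {f : A0 → B0} (h : Lf c f) : Lf c (rangeFactorization f) := by
  intro u v hu hv huv
  obtain ⟨k, hk, hk1, hk2⟩ := h u (fun t => (v t).1) hu (continuous_subtype_val.comp hv)
    (fun s => congrArg Subtype.val (huv s))
  exact ⟨k, hk, hk1, fun t => Subtype.ext (hk2 t)⟩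

/-- The inclusion of a point into the discrete two point space. -/
def dmap : PUnit.{u + 1} → ULift.{u} Bool := fun _ => ⟨true⟩

theorem lf_dmap {S T : Type u} [TopologicalSpace S] [TopologicalSpace T] {c : S → T}
    {f : A0 → B0} (h : Lf c f) (a0 : A0) {b0 : B0} (hb0 : ∀ a, f a ≠ b0) : Lf c dmap.{u} := by
  intro u v _ hv huv
  have hw : Continuous fun z : ULift.{u} Bool => if z.down = true then f a0 else b0 :=
    continuous_of_discreteTopology
  obtain ⟨k, -, -, hk⟩ := h (fun _ => a0) (fun t => if (v t).down = true then f a0 else b0)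
    continuous_const (hw.comp hv) (fun s => by rw [← huv s]; rfl)
  refine ⟨fun _ => PUnit.unit, continuous_const, fun _ => rfl, fun t => ?_⟩
  have h1 := hk t
  by_cases ht : (v t).down = true
  · exact ULift.ext _ _ ht.symm
  · rw [if_neg ht] at h1
    exact absurd h1 (hb0 _)

/-- The particular point topology. -/
@[reducible] def ppTop (Z : Type u) : TopologicalSpace (Option Z) where
  IsOpen U := U.Nonempty → none ∈ U
  isOpen_univ := fun _ => trivial
  isOpen_inter := fun _ _ hs ht h => ⟨hs (h.mono inter_subset_left), ht (h.mono inter_subset_right)⟩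
  isOpen_sUnion := fun _ hS ⟨_, t, ht, h⟩ => ⟨t, ht, hS t ht ⟨_, h⟩⟩

theorem inj_of_closed {p : X → Y} (ht1 : ∀ x x', x ⤳ x' → p x = p x' → x = x')
    (h : Lf (Subtype.val : ({z | z ≠ none} : Set (W (Option X) (ppTop X))) → _) p) :
    Injective p := by
  classical
  intro x1 x2 hx
  have hu : Continuous fun z : ({z | z ≠ none} : Set (W (Option X) (ppTop X))) =>
      if z.1 = some x1 then x1 else x2 := by
    refine continuous_def.2 fun O _ => isOpen_induced_iff.2
      ⟨{w | w = none ∨ (if w = some x1 then x1 else x2) ∈ O}, fun _ => Or.inl rfl, ?_⟩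
    ext z
    exact ⟨fun h => h.elim (fun h => absurd h z.2) id, Or.inr⟩
  obtain ⟨k, hk, hk1, hk2⟩ := h _ (fun _ => p x1) hu continuous_const
    (fun z => by by_cases hz : z.1 = some x1 <;> simp [hz, hx])
  have sp : ∀ w : W (Option X) (ppTop X), toW (ppTop X) none ⤳ w := fun w =>
    specializes_iff_forall_open.2 fun O hO hw => hO ⟨w, hw⟩
  have e : ∀ w : W (Option X) (ppTop X), k (toW (ppTop X) none) = k w := fun w =>
    ht1 _ _ ((sp w).map hk) (by rw [hk2, hk2])
  by_contra hne
  have e1 : k (some x1) = x1 := (hk1 ⟨some x1, Option.some_ne_none _⟩).trans (if_pos rfl)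
  have e2 : k (some x2) = x2 := (hk1 ⟨some x2, Option.some_ne_none _⟩).trans
    (if_neg fun h => hne (Option.some.inj h).symm)
  exact hne (e1.symm.trans (((e _).symm.trans (e _)).trans e2))

theorem section_of_empty {p : X → Y} (h : Lf (PEmpty.elim : PEmpty.{u + 1} → Y) p) :
    ∃ k : Y → X, Continuous k ∧ ∀ y, p (k y) = y := by
  obtain ⟨k, hk, -, hk2⟩ := h PEmpty.elim id continuous_of_discreteTopology continuous_id
    (fun a => a.elim)
  exact ⟨k, hk, hk2⟩

/-- The map from the discrete two point space to the point. -/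
def cmap : ULift.{u} Bool → PUnit.{u + 1} := fun _ => PUnit.unit

theorem inj_of_cmap {p : X → Y} (h : Lf cmap.{u} p) : Injective p := by
  intro x1 x2 hx
  obtain ⟨k, -, hk, -⟩ := h (fun z => if z.down = true then x1 else x2) (fun _ => p x1)
    continuous_of_discreteTopology continuous_const
    (fun z => by by_cases hz : z.down = true <;> simp [hz, hx])
  exact (hk ⟨true⟩).symm.trans (hk ⟨false⟩)

theorem lf_cmap {f : A0 → B0} (hf : (IsCoinducing f ∧ Surjective f) ∨ IsEmpty A0) {p : X → Y}
    (hp : ¬ Injective p) (h : Lf f p) : Lf f cmap.{u} := by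
  rcases hf with ⟨hf, hs⟩ | hf
  · refine lf_coind hf ?_ (Or.inl hs)
    intro u v hu _ _ a a' haa
    simp only [Injective, not_forall] at hp
    obtain ⟨x1, x2, hx, hne⟩ := hp
    have hw : Continuous fun z : ULift.{u} Bool => if z.down = true then x1 else x2 :=
      continuous_of_discreteTopology
    obtain ⟨k, -, hk, -⟩ := h (fun a => if (u a).down = true then x1 else x2) (fun _ => p x1)
      (hw.comp hu) continuous_const
      (fun z => by by_cases hz : (u z).down = true <;> simp [hz, hx])
    have e : (if (u a).down = true then x1 else x2) = if (u a').down = true then x1 else x2 := by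
      rw [← hk a, ← hk a', haa]
    refine ULift.ext _ _ ?_
    by_cases h1 : (u a).down = true <;> by_cases h2 : (u a').down = true
    · rw [h1, h2]
    · rw [if_pos h1, if_neg h2] at e
      exact absurd e hne
    · rw [if_neg h1, if_pos h2] at e
      exact absurd e.symm hne
    · rw [Bool.not_eq_true] at h1 h2
      rw [h1, h2]
  · intro u v _ _ _
    exact ⟨fun _ => ⟨true⟩, continuous_const, isEmptyElim, fun _ => rfl⟩

end

/-- The class of injective maps. -/
def injCls : Set Ar.{u} := {g | Injective g.f}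

/-- Lemma rho 2. -/
theorem ro_ro_ro_cases (C : Set Ar.{u}) {f1 : Ar.{u}} (h1 : f1 ∈ ro C) (hn1 : ¬ IsInducing f1.f)
    {p1 : Ar.{u}} (h2 : p1 ∈ ro (ro C)) (hn2 : ¬ IsInducing p1.f) :
    ro (ro (ro C)) = injCls ∨ ro (ro (ro C)) = ro injCls ∨ ro (ro (ro C)) = ro univ := by
  have s1 : ∀ f ∈ ro C, Surjective f.f → IsCoinducing f.f := by
    intro f hf hs
    refine isCoinducing_iff.2 fun V => ⟨fun hV => ?_, fun hV => hV.preimage f.hf⟩
    by_contra hV'
    exact hn2 (ind_of_nonquot C hs hf hV hV' p1.hf h2)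
  have s2 : ∃ a a', f1.f a = f1.f a' ∧ ¬ a' ⤳ a := by
    by_contra hne
    push Not at hne
    have hq : IsCoinducing (rangeFactorization f1.f) :=
      s1 ⟨f1.A, range f1.f, rangeFactorization f1.f, f1.hf.subtype_mk _⟩
        (fun c hc => lf_corestrict (h1 c hc)) rangeFactorization_surjective
    obtain ⟨U, hU, hU'⟩ := exists_open_of_not_ind f1.hf hn1
    have e : rangeFactorization f1.f ⁻¹' (rangeFactorization f1.f '' U) = U := by
      ext a
      constructor
      · rintro ⟨a', ha', e⟩
        exact (hne a' a (congrArg Subtype.val e)).mem_open hU ha'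
      · exact fun ha => ⟨a, ha, rfl⟩
    have h3 : IsOpen (rangeFactorization f1.f '' U) := by
      rw [← hq.isOpen_preimage, e]
      exact hU
    obtain ⟨V, hV, hV'⟩ := isOpen_induced_iff.1 h3
    refine hU' V hV ?_
    rw [← e, ← hV']
    rfl
  obtain ⟨a, a', haa, hsp⟩ := s2
  have t1 : ∀ x x', x ⤳ x' → p1.f x = p1.f x' → x = x' := fun x x' h3 h4 =>
    t1_of_pair haa hsp (h2 f1 h1) h3 h4
  have sec : (∃ f ∈ ro C, ¬ Surjective f.f) → ∀ n ∈ ro (ro C),
      ∃ k : n.B → n.A, Continuous k ∧ ∀ y, n.f (k y) = y := by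
    rintro ⟨f, hf, hfs⟩ n hn
    exact section_of_empty (hn ⟨PEmpty.{u + 1}, n.B, PEmpty.elim, continuous_of_discreteTopology⟩
      fun c hc => lf_empty (hf c hc) hfs _)
  have s3 : ∀ f ∈ ro C, (IsCoinducing f.f ∧ Surjective f.f) ∨ IsEmpty f.A := by
    intro f hf
    by_cases hs : Surjective f.f
    · exact Or.inl ⟨s1 f hf hs, hs⟩
    refine Or.inr ⟨fun a0 => hn2 ?_⟩
    obtain ⟨k, hk, hk'⟩ := sec ⟨f, hf, hs⟩ p1 h2
    simp only [Surjective, not_forall, not_exists] at hs
    obtain ⟨b0, hb0⟩ := hs
    refine ind_of_section p1.hf (inj_of_closed t1 ?_) hk hk'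
    refine ttrick C (f0 := dmap.{u}) ⟨Subsingleton.elim _ _⟩
      (fun c hc => lf_dmap (hf c hc) a0 hb0) PUnit.unit (b0 := ⟨false⟩) ?_ _ (Or.inl ?_) h2
    · rintro ⟨_, h⟩
      exact Bool.noConfusion (congrArg ULift.down h)
    · exact isOpen_compl_iff.1 fun _ h => h rfl
  have two : ∀ p ∈ ro (ro C), ¬ Injective p.f → ro (ro (ro C)) ⊆ injCls := by
    intro p hp hpi q hq
    exact inj_of_cmap (hq ⟨ULift.{u} Bool, PUnit.{u + 1}, cmap, continuous_const⟩
      fun f hf => lf_cmap (s3 f hf) hpi (hp f hf))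
  by_cases hNS : ∃ f ∈ ro C, ¬ Surjective f.f
  · left
    have hpi : ¬ Injective p1.f := by
      intro hi
      obtain ⟨k, hk, hk'⟩ := sec hNS p1 h2
      exact hn2 (ind_of_section p1.hf hi hk hk')
    refine Subset.antisymm (two p1 h2 hpi) fun q hq n hn u v hu _ huv => ?_
    obtain ⟨k, hk, hk'⟩ := sec hNS n hn
    refine ⟨fun b => u (k b), hu.comp hk, fun a => hq ?_, fun b => by rw [huv, hk']⟩
    rw [huv, huv, hk']
  · right
    have hinj : injCls ⊆ ro (ro C) := by
      intro q hq f hf
      have hs : Surjective f.f := by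
        by_contra h
        exact hNS ⟨f, hf, h⟩
      exact lf_coind (s1 f hf hs) (fun u v _ _ huv a a' haa => hq (by rw [huv, huv, haa]))
        (Or.inl hs)
    by_cases hN : ∃ p ∈ ro (ro C), ¬ Injective p.f
    · right
      obtain ⟨p, hp, hpi⟩ := hN
      refine Subset.antisymm (fun q hq f _ => lf_of_self (hq q (hinj (two p hp hpi hq))) _)
        (ro_anti (subset_univ _))
    · left
      congr 1
      refine Subset.antisymm (fun p hp => ?_) hinj
      by_contra h
      exact hN ⟨p, hp, h⟩

end QNeg
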