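import Mathlib

/-!
A monoid generated by two maps `l`, `r` with `lrl = l`, `rlr = r` is finite as soon as the four
words `lll`, `llrr`, `rrll`, `rrr` have finite range.
-/

namespace QNeg

open Set Function

variable {α : Type*}

/-- The action of a word, letters applied from left to right. -/
def act (l r : α → α) (w : List Bool) (a : α) : α := w.foldl (fun d b => cond b (l d) (r d)) a

theorem act_append (l r : α → α) (w w' : List Bool) (a : α) :
    act l r (w ++ w') a = act l r w' (act l r w a) := List.foldl_append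

/-- The thirteen irreducible words. -/
def irr : List (List Bool) :=
  [[], [true], [false], [true, true], [true, false], [false, true], [false, false],
    [true, true, false], [true, false, false], [false, true, true], [false, false, true],
    [true, false, false, true], [false, true, true, false]]

theorem irr_step {l r : α → α} (h1 : ∀ a, l (r (l a)) = l a) (h2 : ∀ a, r (l (r a)) = r a)
    {G : Set α} (g1 : ∀ a, l (l (l a)) ∈ G) (g2 : ∀ a, r (r (l (l a))) ∈ G)
    (g3 : ∀ a, l (l (r (r a))) ∈ G) (g4 : ∀ a, r (r (r a)) ∈ G) (w : List Bool) (hw : w ∈ irr)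
    (x : Bool) : (∃ w' ∈ irr, ∀ a, act l r (w ++ [x]) a = act l r w' a) ∨
      ∀ a, act l r (w ++ [x]) a ∈ G := by
  simp only [irr, List.mem_cons, List.not_mem_nil, or_false] at hw
  rcases hw with rfl | rfl | rfl | rfl | rfl | rfl | rfl | rfl | rfl | rfl | rfl | rfl | rfl <;>
    cases x
  · exact Or.inl ⟨[false], by decide, fun _ => rfl⟩
  · exact Or.inl ⟨[true], by decide, fun _ => rfl⟩
  · exact Or.inl ⟨[true, false], by decide, fun _ => rfl⟩
  · exact Or.inl ⟨[true, true], by decide, fun _ => rfl⟩
  · exact Or.inl ⟨[false, false], by decide, fun _ => rfl⟩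
  · exact Or.inl ⟨[false, true], by decide, fun _ => rfl⟩
  · exact Or.inl ⟨[true, true, false], by decide, fun _ => rfl⟩
  · exact Or.inr g1
  · exact Or.inl ⟨[true, false, false], by decide, fun _ => rfl⟩
  · exact Or.inl ⟨[true], by decide, h1⟩
  · exact Or.inl ⟨[false], by decide, h2⟩
  · exact Or.inl ⟨[false, true, true], by decide, fun _ => rfl⟩
  · exact Or.inr g4
  · exact Or.inl ⟨[false, false, true], by decide, fun _ => rfl⟩
  · exact Or.inr g2
  · exact Or.inl ⟨[true, true], by decide, fun a => h1 (l a)⟩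
  · exact Or.inr fun a => g4 (l a)
  · exact Or.inl ⟨[true, false, false, true], by decide, fun _ => rfl⟩
  · exact Or.inl ⟨[false, true, true, false], by decide, fun _ => rfl⟩
  · exact Or.inr fun a => g1 (r a)
  · exact Or.inl ⟨[false, false], by decide, fun a => h2 (r a)⟩
  · exact Or.inr g3
  · exact Or.inl ⟨[true, false, false], by decide, fun a => h2 (r (l a))⟩
  · exact Or.inr fun a => g3 (l a)
  · exact Or.inr fun a => g2 (r a)
  · exact Or.inl ⟨[false, true, true], by decide, fun a => h1 (l (r a))⟩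

theorem finite_act {l r : α → α} (h1 : ∀ a, l (r (l a)) = l a) (h2 : ∀ a, r (l (r a)) = r a)
    {G : Set α} (hG : G.Finite) (g1 : ∀ a, l (l (l a)) ∈ G) (g2 : ∀ a, r (r (l (l a))) ∈ G)
    (g3 : ∀ a, l (l (r (r a))) ∈ G) (g4 : ∀ a, r (r (r a)) ∈ G) :
    (range (act l r)).Finite := by
  have step := irr_step h1 h2 g1 g2 g3 g4
  let H : Set α := ⋃ w ∈ {w | w ∈ irr}, act l r w '' G
  have hH : H.Finite := (List.finite_toSet irr).biUnion fun w _ => hG.image _
  have hGH : G ⊆ H := fun a ha => mem_biUnion (x := []) (by decide : [] ∈ irr) ⟨a, ha, rfl⟩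
  have hcl : ∀ (x : Bool), ∀ a ∈ H, act l r [x] a ∈ H := by
    intro x a ha
    obtain ⟨w, hw, g, hg, rfl⟩ := mem_iUnion₂.1 ha
    rw [← act_append]
    rcases step w hw x with ⟨w', hw', e⟩ | e
    · exact mem_biUnion hw' ⟨g, hg, (e g).symm⟩
    · exact hGH (e g)
  have hcl' : ∀ (s : List Bool), ∀ a ∈ H, act l r s a ∈ H := by
    intro s
    induction s with
    | nil => exact fun a ha => ha
    | cons x s ih => exact fun a ha => ih _ (hcl x a ha)
  have main : ∀ w, (∃ w' ∈ irr, ∀ a, act l r w a = act l r w' a) ∨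
      ∃ w' ∈ irr, ∃ x s, (∀ a, act l r (w' ++ [x]) a ∈ G) ∧
        ∀ a, act l r w a = act l r s (act l r (w' ++ [x]) a) := by
    intro w
    induction w using List.reverseRecOn with
    | nil => exact Or.inl ⟨[], by decide, fun _ => rfl⟩
    | append_singleton w x ih =>
      rcases ih with ⟨w', hw', e⟩ | ⟨w', hw', y, s, hG', e⟩
      · rcases step w' hw' x with ⟨w'', hw'', e'⟩ | e'
        · exact Or.inl ⟨w'', hw'', fun a => by rw [← e', act_append, act_append, e]⟩
        · exact Or.inr ⟨w', hw', x, [], e', fun a => by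
            rw [act_append, e, ← act_append]; rfl⟩
      · exact Or.inr ⟨w', hw', y, s ++ [x], hG', fun a => by
          rw [act_append, e, ← act_append l r s]⟩
  have : Finite H := hH.to_subtype
  have hfin : ∀ φ : α → α, {ψ : α → α | ∃ s, (∀ a, φ a ∈ G) ∧ ∀ a, ψ a = act l r s (φ a)}.Finite := by
    intro φ
    by_cases hφ : ∀ a, φ a ∈ G
    · refine (finite_range fun (θ : H → H) (a : α) => (θ ⟨φ a, hGH (hφ a)⟩ : α)).subset ?_
      rintro ψ ⟨s, -, e⟩
      exact ⟨fun h => ⟨act l r s h, hcl' s h h.2⟩, funext fun a => (e a).symm⟩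
    · refine finite_empty.subset ?_
      rintro ψ ⟨s, h, -⟩
      exact hφ h
  refine (((List.finite_toSet irr).image (act l r)).union
    ((List.finite_toSet irr).biUnion fun w' _ =>
      finite_iUnion fun x : Bool => hfin (act l r (w' ++ [x])))).subset ?_
  rintro _ ⟨w, rfl⟩
  rcases main w with ⟨w', hw', e⟩ | ⟨w', hw', x, s, hG', e⟩
  · exact Or.inl ⟨w', hw', funext fun a => (e a).symm⟩
  · exact Or.inr (mem_biUnion hw' (mem_iUnion.2 ⟨x, s, hG', e⟩))

end QNeg
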