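import Pool.Agent.MP_136091_gt.Lam
import Pool.Agent.MP_136091_gt.Rho2
import Pool.Agent.MP_136091_gt.Words

/-!
Finiteness of the monoid generated by the two orthogonals, and the transfer to `TopCat`.
-/

namespace QNeg

open Topology Set Function CategoryTheory

universe u

/-- Values of lemma lambda. -/
def G1 : Set (Set Ar.{u}) := range fun z : Prop × Prop => finalCls z.1 z.2

/-- Values of lemma rho 1. -/
def G2 : Set (Set Ar.{u}) :=
  range fun z : Prop × Prop × Prop × Prop => ro (initCls z.1 z.2.1 z.2.2.1 z.2.2.2)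

/-- Values of lemma rho 2. -/
def G3 : Set (Set Ar.{u}) := {injCls, ro injCls, ro univ}

theorem mem_G1 (C : Set Ar.{u}) (h : ¬ ∀ f ∈ lo C, IsInducing f.f) : lo (lo C) ∈ G1 := by
  push Not at h
  obtain ⟨f0, h0, hn⟩ := h
  exact ⟨(_, _), (lo_lo_eq C h0 hn).symm⟩

theorem mem_G2 (C : Set Ar.{u}) (h : ∀ f ∈ ro C, IsInducing f.f) : ro (ro C) ∈ G2 :=
  ⟨(_, _, _, _), (ro_ro_eq C h).symm⟩

/-- The union of all the values. -/
def G0 : Set (Set Ar.{u}) :=
  G1 ∪ G2 ∪ G3 ∪ lo '' G1 ∪ (fun D => ro (ro D)) '' G1 ∪ (fun D => lo (lo D)) '' G2 ∪ ro '' G2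

theorem G0_finite : G0.{u}.Finite := by
  have h1 : G1.{u}.Finite := finite_range _
  have h2 : G2.{u}.Finite := finite_range _
  have h3 : G3.{u}.Finite := ((finite_singleton _).insert _).insert _
  exact (((((h1.union h2).union h3).union (h1.image _)).union (h1.image _)).union
    (h2.image _)).union (h2.image _)

theorem finite_act_Ar : (range (act lo.{u} ro.{u})).Finite := by
  refine finite_act lo_ro_lo ro_lo_ro G0_finite (fun C => ?_) (fun C => ?_) (fun C => ?_)
    (fun C => ?_)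
  · by_cases h : ∀ f ∈ lo C, IsInducing f.f
    · obtain ⟨f0, h0, hn⟩ := exists_not_ind h
      exact .inl (.inl (.inl (.inl (.inl (.inl (mem_G1 (lo C) fun h' => hn (h' f0 h0)))))))
    · exact .inl (.inl (.inl (.inr ⟨_, mem_G1 C h, rfl⟩)))
  · by_cases h : ∀ f ∈ lo C, IsInducing f.f
    · exact .inl (.inl (.inl (.inl (.inl (.inr (mem_G2 (lo (lo C)) (ro_lo_ind h)))))))
    · exact .inl (.inl (.inr ⟨_, mem_G1 C h, rfl⟩))
  · by_cases h : ∀ f ∈ ro C, IsInducing f.f
    · exact .inl (.inr ⟨_, mem_G2 C h, rfl⟩)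
    · exact .inl (.inl (.inl (.inl (.inl (.inl (mem_G1 (ro (ro C))
        fun h' => h fun f hf => h' f (sub_lo_ro _ hf)))))))
  · by_cases h : ∀ f ∈ ro C, IsInducing f.f
    · exact .inr ⟨_, mem_G2 C h, rfl⟩
    by_cases h' : ∀ f ∈ ro (ro C), IsInducing f.f
    · exact .inl (.inl (.inl (.inl (.inl (.inr (mem_G2 (ro C) h'))))))
    push Not at h h'
    obtain ⟨f1, h1, hn1⟩ := h
    obtain ⟨p1, h2, hn2⟩ := h'
    exact .inl (.inl (.inl (.inl (.inr (ro_ro_ro_cases C h1 hn1 h2 hn2)))))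

/-- The morphism of `TopCat` given by an arrow. -/
def Ar.hom (g : Ar.{u}) : TopCat.of g.A ⟶ TopCat.of g.B := TopCat.ofHom ⟨g.f, g.hf⟩

/-- The arrow given by a morphism of `TopCat`. -/
def ofHom {X Y : TopCat.{u}} (f : X ⟶ Y) : Ar.{u} := ⟨X, Y, f.hom, f.hom.continuous⟩

theorem hlp_iff {A B X Y : TopCat.{u}} (f : A ⟶ B) (p : X ⟶ Y) :
    HasLiftingProperty f p ↔ Lf f.hom p.hom := by
  constructor
  · intro h u v hu hv huv
    have sq : CommSq (TopCat.ofHom ⟨u, hu⟩) f p (TopCat.ofHom ⟨v, hv⟩) :=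
      ⟨TopCat.ext fun a => huv a⟩
    exact ⟨sq.lift.hom, sq.lift.hom.continuous,
      fun a => ConcreteCategory.congr_hom sq.fac_left a,
      fun b => ConcreteCategory.congr_hom sq.fac_right b⟩
  · intro h
    refine ⟨fun {u v} sq => ?_⟩
    obtain ⟨k, hk, hk1, hk2⟩ := h u.hom v.hom u.hom.continuous v.hom.continuous
      (fun a => ConcreteCategory.congr_hom sq.w a)
    exact ⟨⟨⟨TopCat.ofHom ⟨k, hk⟩, TopCat.ext fun a => hk1 a, TopCat.ext fun b => hk2 b⟩⟩⟩

/-- Classes of morphisms as sets of arrows. -/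
def toSet (P : MorphismProperty TopCat.{u}) : Set Ar.{u} := {g | P g.hom}

/-- Sets of arrows as classes of morphisms. -/
def ofSet (S : Set Ar.{u}) : MorphismProperty TopCat.{u} := fun _ _ f => ofHom f ∈ S

theorem ofSet_toSet (P : MorphismProperty TopCat.{u}) : ofSet (toSet P) = P := rfl

theorem toSet_llp (P : MorphismProperty TopCat.{u}) : toSet P.llp = lo (toSet P) := by
  ext g
  constructor
  · intro hg p hp
    exact (hlp_iff g.hom p.hom).1 (hg _ hp)
  · intro hg X Y p hp
    exact (hlp_iff g.hom p).2 (hg (ofHom p) hp)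

theorem toSet_rlp (P : MorphismProperty TopCat.{u}) : toSet P.rlp = ro (toSet P) := by
  ext g
  constructor
  · intro hg p hp
    exact (hlp_iff p.hom g.hom).1 (hg _ hp)
  · intro hg X Y p hp
    exact (hlp_iff p g.hom).2 (hg (ofHom p) hp)

theorem toSet_act (w : List Bool) (P : MorphismProperty TopCat.{u}) :
    toSet (act MorphismProperty.llp MorphismProperty.rlp w P) = act lo ro w (toSet P) := by
  induction w generalizing P with
  | nil => rfl
  | cons x w ih =>
    cases x
    · exact (ih P.rlp).trans (by rw [toSet_rlp]; rfl)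
    · exact (ih P.llp).trans (by rw [toSet_llp]; rfl)

theorem finite_act_Top : (range (act (α := MorphismProperty TopCat.{u})
    MorphismProperty.llp MorphismProperty.rlp)).Finite := by
  refine (finite_act_Ar.image fun φ P => ofSet (φ (toSet P))).subset ?_
  rintro _ ⟨w, rfl⟩
  refine ⟨_, ⟨w, rfl⟩, funext fun P => ?_⟩
  exact congrArg ofSet (toSet_act w P).symm

end QNeg
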