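import Pool.Agent.MP_136091_gt.Basic

/-!
The right orthogonal of a right orthogonal made of inducing maps depends on four bits.
-/

namespace QNeg

open Topology Set Function Filter

universe u

theorem exists_big_filter (I : Type u) : ∃ (E : Type u) (F : Filter E),
    (∀ e, ({e}ᶜ : Set E) ∈ F) ∧ ∀ s : I → Set E, (∀ i, s i ∈ F) → ∃ e, ∀ i, e ∈ s i := by
  let c : Cardinal.{u} := Order.succ (max (Cardinal.mk I) Cardinal.aleph0)
  have hreg : c.IsRegular := Cardinal.isRegular_succ (le_max_right _ _)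
  have hI : Cardinal.mk I < c := lt_of_le_of_lt (le_max_left _ _) (Order.lt_succ _)
  refine ⟨c.out, cocardinal c.out hreg, fun e => (finite_singleton e).compl_mem_cocardinal,
    fun s hs => ?_⟩
  have h1 : (⋂ i, s i) ∈ cocardinal c.out hreg := (cardinal_iInter_mem hI).2 hs
  by_contra hne
  have h2 : (⋂ i, s i) = ∅ := by
    ext e
    simp only [mem_iInter, mem_empty_iff_false, iff_false]
    exact fun h => hne ⟨e, h⟩
  rw [h2, mem_cocardinal, compl_empty, Cardinal.mk_univ, Cardinal.mk_out] at h1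
  exact lt_irrefl _ h1

section
variable {A0 B0 B X Y : Type u} [TopologicalSpace A0] [TopologicalSpace B0] [TopologicalSpace B]
  [TopologicalSpace X] [TopologicalSpace Y]

/-- The auxiliary inclusion lies in the right orthogonal. -/
theorem slice_lf {S T E : Type u} [TopologicalSpace S] [TopologicalSpace T] [TopologicalSpace E]
    {c : S → T} (hc : Continuous c) {f0 : A0 → B0} (hf0 : IsInducing f0) (h : Lf c f0) (a0 : A0)
    (o : E) (hE : ∀ e, e ≠ o → IsClopen ({e} : Set E)) (A : Set B) :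
    Lf c (Subtype.val : {z : {z : B × E × B0 // z.1 ∈ A ↔ (z.2.1 = o ∨ z.2.2 ∈ range f0)} //
      z.1.1 ∈ A} → _) := by
  classical
  intro u v hu hv huv
  have key : ∀ t, (v t).1.1 ∈ A := by
    intro t
    by_contra ht
    have h1 : ¬ ((v t).1.2.1 = o ∨ (v t).1.2.2 ∈ range f0) := fun h => ht ((v t).2.2 h)
    rw [not_or] at h1
    have hcl : IsClopen {t' | (v t').1.2.1 = (v t).1.2.1} :=
      (hE _ h1.1).preimage (f := fun t' => (v t').1.2.1) (by fun_prop)
    have hw : Continuous fun t' =>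
        if (v t').1.2.1 = (v t).1.2.1 then (v t').1.2.2 else f0 a0 := by
      refine Continuous.if ?_ (by fun_prop) continuous_const
      intro a ha
      rw [hcl.frontier_eq] at ha
      exact ha.elim
    have hr : ∀ s, ∃ a, f0 a =
        if (v (c s)).1.2.1 = (v t).1.2.1 then (v (c s)).1.2.2 else f0 a0 := by
      intro s
      by_cases hs : (v (c s)).1.2.1 = (v t).1.2.1
      · rw [if_pos hs]
        have h2 : (v (c s)).1.1 ∈ A := by
          rw [← huv s]
          exact (u s).2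
        rcases (v (c s)).2.1 h2 with h3 | h3
        · exact absurd (hs.symm.trans h3) h1.1
        · exact h3
      · rw [if_neg hs]
        exact ⟨a0, rfl⟩
    choose u' hu' using hr
    have hu'c : Continuous u' := by
      rw [hf0.continuous_iff]
      convert hw.comp hc using 1
      exact funext hu'
    obtain ⟨k, -, -, hk⟩ := h u' _ hu'c hw hu'
    have := hk t
    rw [if_pos rfl] at this
    exact h1.2 ⟨_, this⟩
  refine ⟨fun t => ⟨v t, key t⟩, hv.subtype_mk _, fun s => Subtype.ext (huv s).symm, fun _ => rfl⟩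

/-- The main construction: subspace inclusions lift against `p`. -/
theorem ttrick (C : Set Ar.{u}) {f0 : A0 → B0} (hf0 : IsInducing f0)
    (hR : ∀ c ∈ C, Lf c.f f0) (a0 : A0) {b0 : B0} (hb0 : b0 ∉ range f0) (A : Set B)
    (hA : IsClosed A ∨ b0 ∈ closure (range f0)) {p : X → Y} (hp : ∀ g ∈ ro C, Lf g.f p) :
    Lf (Subtype.val : A → B) p := by
  classical
  obtain ⟨E, F, hF1, hF2⟩ := exists_big_filter (B × Set X)
  let E' := W (Option E) (nhdsAdjoint none (map some F))
  let o : E' := none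
  let sm : E → E' := some
  have hsm : ∀ e, sm e ≠ o := fun e => Option.some_ne_none e
  have hE : ∀ e : E', e ≠ o → IsClopen ({e} : Set E') := by
    intro e he
    refine ⟨isOpen_compl_iff.1 fun _ => ?_, isOpen_singleton_nhdsAdjoint _ he⟩
    obtain ⟨e', rfl⟩ := Option.ne_none_iff_exists'.1 he
    refine mem_map.2 (mem_of_superset (hF1 e') fun x hx hx' => hx ?_)
    exact Option.some.inj hx'
  have hno : ∀ s : Set E', s ∈ 𝓝 o → sm ⁻¹' s ∈ F := by
    intro s hs
    obtain ⟨t, hts, ht, hto⟩ := mem_nhds_iff.1 hs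
    exact mem_of_superset (ht hto) fun x hx => hts hx
  let B' := {z : B × E' × B0 // z.1 ∈ A ↔ (z.2.1 = o ∨ z.2.2 ∈ range f0)}
  intro u v hu hv huv
  obtain ⟨k, hk, hk1, hk2⟩ := hp ⟨{z : B' // z.1.1 ∈ A}, B', Subtype.val, continuous_subtype_val⟩
    (fun c hc => slice_lf c.hf hf0 (hR c hc) a0 o hE A)
    (fun z => u ⟨z.1.1.1, z.2⟩) (fun z => v z.1.1)
    (hu.comp ((continuous_fst.comp (continuous_subtype_val.comp
      continuous_subtype_val)).subtype_mk _))
    (hv.comp (continuous_fst.comp continuous_subtype_val))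
    (fun z => huv _)
  have hk1' : ∀ (z : B') (hz : z.1.1 ∈ A), k z = u ⟨z.1.1, hz⟩ := fun z hz => hk1 ⟨z, hz⟩
  have box : ∀ (z : B') (O : Set X), IsOpen O → k z ∈ O → ∃ Wb ∈ 𝓝 z.1.1, ∃ We ∈ 𝓝 z.1.2.1,
      ∃ Wz ∈ 𝓝 z.1.2.2, ∀ z' : B', z'.1.1 ∈ Wb → z'.1.2.1 ∈ We → z'.1.2.2 ∈ Wz → k z' ∈ O := by
    intro z O hO hz
    have h1 : k ⁻¹' O ∈ 𝓝 z := (hO.preimage hk).mem_nhds hz
    obtain ⟨N, hN, hNO⟩ := (mem_nhds_subtype _ z _).1 h1
    obtain ⟨Wb, hWb, N2, hN2, h2⟩ := mem_nhds_prod_iff.1 hN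
    obtain ⟨We, hWe, Wz, hWz, h3⟩ := mem_nhds_prod_iff.1 hN2
    exact ⟨Wb, hWb, We, hWe, Wz, hWz, fun z' h4 h5 h6 => hNO (h2 ⟨h4, h3 ⟨h5, h6⟩⟩)⟩
  let pA : ∀ b, b ∈ A → B' := fun b hb => ⟨(b, o, b0), iff_of_true hb (Or.inl rfl)⟩
  let pN : ∀ (e : E) b, b ∉ A → B' := fun e b hb =>
    ⟨(b, sm e, b0), iff_of_false hb fun h => h.elim (hsm e) hb0⟩
  have sel : ∀ i : B × Set X, ∃ s ∈ F, ∀ (hb : i.1 ∈ A), IsOpen i.2 → u ⟨i.1, hb⟩ ∈ i.2 →
      ∃ Wb ∈ 𝓝 i.1, (∀ b (hb' : b ∈ A), b ∈ Wb → u ⟨b, hb'⟩ ∈ i.2) ∧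
        ∀ e ∈ s, ∀ b (hb' : b ∉ A), b ∈ Wb → k (pN e b hb') ∈ i.2 := by
    rintro ⟨b, O⟩
    by_cases h : ∃ hb : b ∈ A, IsOpen O ∧ u ⟨b, hb⟩ ∈ O
    · obtain ⟨hb, hO, hu0⟩ := h
      obtain ⟨Wb, hWb, We, hWe, Wz, hWz, hW⟩ := box (pA b hb) O hO (by rw [hk1' _ hb]; exact hu0)
      refine ⟨sm ⁻¹' We, hno _ hWe, fun _ _ _ => ⟨Wb, hWb, fun b' hb' h1 => ?_,
        fun e he b' hb' h1 => hW _ h1 he (mem_of_mem_nhds hWz)⟩⟩
      have := hW (pA b' hb') h1 (mem_of_mem_nhds hWe) (mem_of_mem_nhds hWz)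
      rwa [hk1' _ hb'] at this
    · exact ⟨univ, univ_mem, fun hb hO hu0 => absurd ⟨hb, hO, hu0⟩ h⟩
  choose s hsF hs using sel
  obtain ⟨e, he⟩ := hF2 s hsF
  refine ⟨fun b => if hb : b ∈ A then u ⟨b, hb⟩ else k (pN e b hb), ?_, ?_, ?_⟩
  · refine continuous_def.2 fun O hO => isOpen_iff_mem_nhds.2 fun b hbO => ?_
    by_cases hb : b ∈ A
    · simp only [mem_preimage, dif_pos hb] at hbO
      obtain ⟨Wb, hWb, h1, h2⟩ := hs (b, O) hb hO hbO
      refine mem_of_superset hWb fun b' hb' => ?_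
      by_cases h3 : b' ∈ A
      · simp only [mem_preimage, dif_pos h3]
        exact h1 b' h3 hb'
      · simp only [mem_preimage, dif_neg h3]
        exact h2 e (he _) b' h3 hb'
    · simp only [mem_preimage, dif_neg hb] at hbO
      obtain ⟨Wb, hWb, We, hWe, Wz, hWz, hW⟩ := box (pN e b hb) O hO hbO
      have hoff : ∀ b' (h3 : b' ∉ A), b' ∈ Wb → k (pN e b' h3) ∈ O := fun b' h3 hb' =>
        hW _ hb' (mem_of_mem_nhds hWe) (mem_of_mem_nhds hWz)
      rcases hA with hA | hA
      · refine mem_of_superset (inter_mem hWb (hA.isOpen_compl.mem_nhds hb)) fun b' hb' => ?_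
        have h3 : b' ∉ A := hb'.2
        simp only [mem_preimage, dif_neg h3]
        exact hoff b' h3 hb'.1
      · obtain ⟨z, hz1, hz2⟩ := mem_closure_iff_nhds.1 hA Wz hWz
        refine mem_of_superset hWb fun b' hb' => ?_
        by_cases h3 : b' ∈ A
        · simp only [mem_preimage, dif_pos h3]
          have := hW ⟨(b', sm e, z), iff_of_true h3 (Or.inr hz2)⟩ hb' (mem_of_mem_nhds hWe) hz1
          rwa [hk1' _ h3] at this
        · simp only [mem_preimage, dif_neg h3]
          exact hoff b' h3 hb'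
  · intro a
    simp only [dif_pos a.2]
  · intro b
    by_cases hb : b ∈ A
    · simp only [dif_pos hb]
      exact huv ⟨b, hb⟩
    · simp only [dif_neg hb]
      exact hk2 _

/-- A map with empty domain lifts against `c` as soon as some non-surjective map does. -/
theorem lf_empty {S T A : Type u} [TopologicalSpace S] [TopologicalSpace T] [TopologicalSpace A]
    {c : S → T} {f0 : A0 → B0} (h : Lf c f0) (hs : ¬ Surjective f0) [IsEmpty A] (f : A → B) :
    Lf c f := by
  intro u v _ _ _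
  simp only [Surjective, not_forall, not_exists] at hs
  obtain ⟨b0, hb0⟩ := hs
  have : IsEmpty S := ⟨fun s => isEmptyElim (u s)⟩
  obtain ⟨k, -, -, hk⟩ := h isEmptyElim (fun _ => b0) continuous_of_discreteTopology
    continuous_const isEmptyElim
  have : IsEmpty T := ⟨fun t => hb0 _ (hk t)⟩
  exact ⟨isEmptyElim, continuous_of_discreteTopology, isEmptyElim, isEmptyElim⟩

theorem Lf.comp {A B' : Type u} [TopologicalSpace A] [TopologicalSpace B'] {s : A → B'}
    {i : B' → B} {p : X → Y} (hi : Continuous i) (h1 : Lf s p) (h2 : Lf i p) :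
    Lf (fun a => i (s a)) p := by
  intro u v hu hv huv
  obtain ⟨k, hk, hk1, hk2⟩ := h1 u (fun b => v (i b)) hu (hv.comp hi) huv
  obtain ⟨k', hk', hk1', hk2'⟩ := h2 k v hk hv hk2
  exact ⟨k', hk', fun a => by rw [hk1', hk1], hk2'⟩

end

/-- The sixteen possible values are the right orthogonals of these classes. -/
def initCls (i s s' c : Prop) : Set Ar.{u} :=
  {f | IsInducing f.f ∧ (¬ i → Injective f.f) ∧ (¬ s → Surjective f.f) ∧
    (¬ s' → Surjective f.f ∨ IsEmpty f.A) ∧ (¬ c → IsClosed (range f.f))}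

/-- Lemma rho 1. -/
theorem ro_ro_eq (C : Set Ar.{u}) (h : ∀ f ∈ ro C, IsInducing f.f) :
    ro (ro C) = ro (initCls (∃ f ∈ ro C, ¬ Injective f.f) (∃ f ∈ ro C, ¬ Surjective f.f)
      (∃ f ∈ ro C, ¬ Surjective f.f ∧ Nonempty f.A) (∃ f ∈ ro C, ¬ IsClosed (range f.f))) := by
  refine Subset.antisymm ?_ (ro_anti fun f hf => ⟨h f hf, ?_, ?_, ?_, ?_⟩)
  · rintro p hp f ⟨hf, hi, hs, hs', hc⟩
    have h1 : Lf (rangeFactorization f.f) p.f := by
      have hind : IsInducing (rangeFactorization f.f) :=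
        IsInducing.of_comp (f.hf.subtype_mk _) continuous_subtype_val hf
      by_cases hNI : ∃ f ∈ ro C, ¬ Injective f.f
      · obtain ⟨g, hg, hgi⟩ := hNI
        exact lf_surj_ind hind rangeFactorization_surjective fun x x' h1 h2 h3 =>
          t0_fibres hgi (hp g hg) h1 h2 h3
      · refine lf_coind (hind.isQuotientMap_of_surjective
          rangeFactorization_surjective).isCoinducing ?_ (Or.inl rangeFactorization_surjective)
        intro u v _ _ _ a a' haa
        rw [hi hNI (congrArg Subtype.val haa)]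
    refine Lf.comp (i := Subtype.val) continuous_subtype_val h1 ?_
    by_cases hsurj : Surjective f.f
    · have hv : Surjective (Subtype.val : range f.f → f.B) := fun b => ⟨⟨b, hsurj b⟩, rfl⟩
      refine lf_coind (IsInducing.subtypeVal.isQuotientMap_of_surjective hv).isCoinducing ?_
        (Or.inl hv)
      intro u v _ _ _ a a' haa
      rw [Subtype.ext haa]
    by_cases hemp : IsEmpty f.A
    · obtain ⟨g, hg, hgs⟩ : ∃ f ∈ ro C, ¬ Surjective f.f := by
        by_contra hne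
        exact hsurj (hs hne)
      have : IsEmpty (range f.f) := ⟨fun ⟨_, a, _⟩ => hemp.elim a⟩
      exact hp ⟨range f.f, f.B, Subtype.val, continuous_subtype_val⟩
        fun c hc => lf_empty (hg c hc) hgs _
    by_cases hcl : IsClosed (range f.f)
    · obtain ⟨g, hg, hgs, ⟨a0⟩⟩ : ∃ f ∈ ro C, ¬ Surjective f.f ∧ Nonempty f.A := by
        by_contra hne
        exact (hs' hne).elim hsurj hemp
      simp only [Surjective, not_forall] at hgs
      obtain ⟨b0, hb0⟩ := hgs
      exact ttrick C (h g hg) hg a0 (b0 := b0) hb0 _ (Or.inl hcl) hp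
    · obtain ⟨g, hg, hgc⟩ : ∃ f ∈ ro C, ¬ IsClosed (range f.f) := by
        by_contra hne
        exact hcl (hc hne)
      obtain ⟨b0, hb1, hb0⟩ : ∃ b0, b0 ∈ closure (range g.f) ∧ b0 ∉ range g.f := by
        by_contra hne
        push Not at hne
        exact hgc (closure_subset_iff_isClosed.1 hne)
      obtain ⟨_, a0, -⟩ : (range g.f).Nonempty := closure_nonempty_iff.1 ⟨b0, hb1⟩
      exact ttrick C (h g hg) hg a0 hb0 _ (Or.inr hb1) hp
  · intro hne
    by_contra h1
    exact hne ⟨f, hf, h1⟩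
  · intro hne
    by_contra h1
    exact hne ⟨f, hf, h1⟩
  · intro hne
    by_contra h1
    rw [not_or, not_isEmpty_iff] at h1
    exact hne ⟨f, hf, h1⟩
  · intro hne
    by_contra h1
    exact hne ⟨f, hf, h1⟩

end QNeg
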